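import Pool.Agent.Q270.EB.StmF

/-! Project EB (helper270): job FUR1, measure theory (helper299). -/

set_option autoImplicit false
set_option linter.all false

namespace Pool.Agent.Q299.EB

open MeasureTheory Finset Filter Pool.Agent.Q270.EA
open Pool.Agent.Q270.EB

/-- the sequences without the time `0` -/
abbrev YX (r : ℕ) : Type := {k : ℤ // k ≠ 0} → Fin (r + 1) → Disc

/-- the restriction -/
def rs (r : ℕ) (x : SX r) : YX r := fun k => x k.1

theorem rs_cont (r : ℕ) : Continuous (rs r) := continuous_pi fun k => continuous_apply k.1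

theorem rs_meas (r : ℕ) : Measurable (rs r) := measurable_pi_lambda _ fun k => measurable_pi_apply k.1

theorem others_eq (r : ℕ) : others r = MeasurableSpace.comap (rs r) inferInstance := by
  unfold others
  show _ = MeasurableSpace.comap (rs r) (⨆ k, MeasurableSpace.comap (fun y : YX r => y k) inferInstance)
  rw [MeasurableSpace.comap_iSup]
  refine iSup_congr fun k => ?_
  rw [MeasurableSpace.comap_comp]
  rfl

/-- the coordinate at time `0` -/
noncomputable def v0 {r : ℕ} (x : SX r) : ℂ := ((x 0 0 : Disc) : ℂ)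

theorem v0_cont (r : ℕ) : Continuous (v0 (r := r)) := by
  unfold v0
  exact continuous_subtype_val.comp ((continuous_apply (0 : Fin (r + 1))).comp (continuous_apply (0 : ℤ)))

theorem v0_norm {r : ℕ} (x : SX r) : ‖v0 x‖ ≤ 1 := by
  unfold v0
  have := (x 0 0).2
  rwa [mem_closedBall_zero_iff] at this

section main

variable {r : ℕ} {μ : Measure (SX r)} [IsProbabilityMeasure μ]

theorem int_of {φ : SX r → ℂ} (hφ : Continuous φ) {C : ℝ} (hC : ∀ x, ‖φ x‖ ≤ C) : Integrable φ μ :=
  Integrable.of_bound hφ.aestronglyMeasurable C (Eventually.of_forall hC)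

theorem int_psi (ψ : C(YX r, ℂ)) : Integrable (fun x => ψ (rs r x) * v0 x) μ := by
  refine int_of ((ψ.continuous.comp (rs_cont r)).mul (v0_cont r)) (C := ‖ψ‖) fun x => ?_
  rw [norm_mul]
  calc ‖ψ (rs r x)‖ * ‖v0 x‖ ≤ ‖ψ‖ * 1 :=
        mul_le_mul (ψ.norm_coe_le_norm _) (v0_norm x) (norm_nonneg _) (norm_nonneg _)
    _ = ‖ψ‖ := mul_one _

/-- the functional -/
noncomputable def LL (μ : Measure (SX r)) (ψ : C(YX r, ℂ)) : ℂ := ∫ x, ψ (rs r x) * v0 x ∂μ

theorem LL_cont : Continuous (LL (r := r) μ) := by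
  have : LipschitzWith 1 (LL (r := r) μ) := by
    refine LipschitzWith.of_dist_le_mul fun ψ φ => ?_
    rw [NNReal.coe_one, one_mul, dist_eq_norm, dist_eq_norm]
    unfold LL
    rw [← integral_sub (int_psi ψ) (int_psi φ)]
    have h := norm_integral_le_of_norm_le_const (μ := μ) (f := fun x => ψ (rs r x) * v0 x - φ (rs r x) * v0 x)
      (C := ‖ψ - φ‖) (Eventually.of_forall fun x => by
        rw [← sub_mul, norm_mul]
        have h1 : ‖ψ (rs r x) - φ (rs r x)‖ ≤ ‖ψ - φ‖ := (ψ - φ).norm_coe_le_norm _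
        calc ‖ψ (rs r x) - φ (rs r x)‖ * ‖v0 x‖ ≤ ‖ψ - φ‖ * 1 :=
              mul_le_mul h1 (v0_norm x) (norm_nonneg _) (norm_nonneg _)
          _ = _ := mul_one _)
    simpa using h
  exact this.continuous

/-- the monomials on the restricted sequences -/
def IsMon (ψ : C(YX r, ℂ)) : Prop := ∃ (K : Finset ℤ) (α β : ℤ → Fin (r + 1) → ℕ), (0 : ℤ) ∉ K ∧
  (∀ k, k ∉ K → ∀ j, α k j = 0 ∧ β k j = 0) ∧ ∀ x : SX r, ψ (rs r x) = mon K α β x

theorem mon_mono {K K' : Finset ℤ} {α β : ℤ → Fin (r + 1) → ℕ} (h : ∀ k, k ∉ K → ∀ j, α k j = 0 ∧ β k j = 0)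
    (hK : K ⊆ K') (x : SX r) : mon K α β x = mon K' α β x := by
  unfold mon
  refine prod_subset hK fun k _ hk => ?_
  refine prod_eq_one fun j _ => ?_
  obtain ⟨h1, h2⟩ := h k hk j
  rw [h1, h2, pow_zero, pow_zero, one_mul]

theorem IsMon.mul {ψ φ : C(YX r, ℂ)} (h : IsMon ψ) (h' : IsMon φ) : IsMon (ψ * φ) := by
  classical
  obtain ⟨K, α, β, hK, hz, hψ⟩ := h
  obtain ⟨K', α', β', hK', hz', hφ⟩ := h'
  refine ⟨K ∪ K', fun k j => α k j + α' k j, fun k j => β k j + β' k j, ?_, ?_, ?_⟩
  · rw [mem_union]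
    tauto
  · intro k hk j
    rw [mem_union, not_or] at hk
    have h1 := hz k hk.1 j
    have h2 := hz' k hk.2 j
    exact ⟨by simp only [h1.1, h2.1], by simp only [h1.2, h2.2]⟩
  · intro x
    rw [ContinuousMap.mul_apply, hψ, hφ, mon_mono hz subset_union_left x, mon_mono hz' subset_union_right x]
    unfold mon
    rw [← prod_mul_distrib]
    refine prod_congr rfl fun k _ => ?_
    rw [← prod_mul_distrib]
    refine prod_congr rfl fun j _ => ?_
    rw [pow_add, pow_add]
    ring

theorem IsMon.one : IsMon (1 : C(YX r, ℂ)) :=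
  ⟨∅, fun _ _ => 0, fun _ _ => 0, notMem_empty _, fun _ _ _ => ⟨rfl, rfl⟩, fun x => by simp [mon]⟩

/-- the coordinates -/
noncomputable def co (k : {k : ℤ // k ≠ 0}) (j : Fin (r + 1)) : C(YX r, ℂ) :=
  ⟨fun y => ((y k j : Disc) : ℂ), continuous_subtype_val.comp ((continuous_apply j).comp (continuous_apply k))⟩

theorem IsMon.star {ψ : C(YX r, ℂ)} (h : IsMon ψ) : IsMon (Star.star ψ) := by
  obtain ⟨K, α, β, hK, hz, hψ⟩ := h
  refine ⟨K, β, α, hK, fun k hk j => ⟨(hz k hk j).2, (hz k hk j).1⟩, fun x => ?_⟩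
  rw [ContinuousMap.star_apply, hψ]
  unfold mon
  rw [RCLike.star_def, map_prod]
  refine prod_congr rfl fun k _ => ?_
  rw [map_prod]
  refine prod_congr rfl fun j _ => ?_
  rw [map_mul, map_pow, map_pow, Complex.conj_conj, mul_comm]

theorem IsMon.co (k : {k : ℤ // k ≠ 0}) (j : Fin (r + 1)) : IsMon (co (r := r) k j) := by
  classical
  refine ⟨{k.1}, fun k' j' => if k' = k.1 ∧ j' = j then 1 else 0, fun _ _ => 0, ?_, ?_, ?_⟩
  · rw [mem_singleton]
    exact fun h => k.2 h.symm
  · intro k' hk' j'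
    rw [mem_singleton] at hk'
    exact ⟨by simp [hk'], rfl⟩
  · intro x
    unfold mon
    rw [prod_singleton]
    have e : ∀ j' : Fin (r + 1), ((x k.1 j' : Disc) : ℂ) ^ (if k.1 = k.1 ∧ j' = j then 1 else 0) *
        (starRingEnd ℂ ((x k.1 j' : Disc) : ℂ)) ^ 0 = if j' = j then ((x k.1 j' : Disc) : ℂ) else 1 := by
      intro j'
      by_cases h : j' = j
      · simp [h]
      · simp [h]
    rw [prod_congr rfl fun j' _ => e j', prod_ite_eq' univ j, if_pos (mem_univ j)]
    rfl

theorem LL_add (ψ φ : C(YX r, ℂ)) : LL μ (ψ + φ) = LL μ ψ + LL μ φ := by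
  unfold LL
  rw [← integral_add (int_psi ψ) (int_psi φ)]
  refine integral_congr_ae (Eventually.of_forall fun x => ?_)
  simp only [ContinuousMap.add_apply]
  ring

theorem LL_smul (c : ℂ) (ψ : C(YX r, ℂ)) : LL μ (c • ψ) = c * LL μ ψ := by
  unfold LL
  rw [← integral_const_mul]
  refine integral_congr_ae (Eventually.of_forall fun x => ?_)
  simp only [ContinuousMap.smul_apply, smul_eq_mul]
  ring

theorem LL_zero (h : ∀ (K : Finset ℤ), (0 : ℤ) ∉ K → ∀ α β : ℤ → Fin (r + 1) → ℕ,
    ∫ x, ((x 0 0 : Disc) : ℂ) * mon K α β x ∂μ = 0) (ψ : C(YX r, ℂ)) : LL μ ψ = 0 := by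
  set S : Set C(YX r, ℂ) := {ψ | ∃ k j, ψ = co k j} with hS
  have hclos : ∀ ψ ∈ Submonoid.closure (S ∪ star S), IsMon ψ := by
    intro ψ hψ
    induction hψ using Submonoid.closure_induction with
    | mem φ hφ =>
      rcases hφ with ⟨k, j, rfl⟩ | hφ
      · exact IsMon.co k j
      · obtain ⟨k, j, hkj⟩ := Set.mem_star.1 hφ
        have : φ = Star.star (co k j) := by rw [← hkj, star_star]
        rw [this]
        exact (IsMon.co k j).star
    | one => exact IsMon.one
    | mul φ φ' _ _ h1 h2 => exact h1.mul h2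
  have hmon : ∀ ψ, IsMon ψ → LL μ ψ = 0 := by
    rintro ψ ⟨K, α, β, hK, _, hψ⟩
    rw [← h K hK α β]
    unfold LL v0
    refine integral_congr_ae (Eventually.of_forall fun x => ?_)
    simp only [hψ]
    ring
  have hadj : ∀ ψ ∈ StarAlgebra.adjoin ℂ S, LL μ ψ = 0 := by
    intro ψ hψ
    have h1 : ψ ∈ Submodule.span ℂ ((Submonoid.closure (S ∪ star S) : Submonoid C(YX r, ℂ)) : Set C(YX r, ℂ)) := by
      rw [← Algebra.adjoin_eq_span, ← StarAlgebra.adjoin_toSubalgebra]
      exact hψ
    clear hψ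
    induction h1 using Submodule.span_induction with
    | mem φ hφ => exact hmon φ (hclos φ hφ)
    | zero => simp [LL]
    | add φ φ' h1 h2 h3 h4 => rw [LL_add, h3, h4, add_zero]
    | smul c φ h1 h2 => rw [LL_smul, h2, mul_zero]
  have htop : (StarAlgebra.adjoin ℂ S).topologicalClosure = ⊤ := by
    refine ContinuousMap.starSubalgebra_topologicalClosure_eq_top_of_separatesPoints _ ?_
    intro y y' hyy
    obtain ⟨k, hk⟩ := Function.ne_iff.1 hyy
    obtain ⟨j, hj⟩ := Function.ne_iff.1 hk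
    refine ⟨_, ⟨co k j, StarAlgebra.subset_adjoin ℂ S ⟨k, j, rfl⟩, rfl⟩, ?_⟩
    intro h'
    exact hj (Subtype.ext h')
  have hmem : ψ ∈ (StarAlgebra.adjoin ℂ S).topologicalClosure := by
    rw [htop]
    trivial
  have hcl : IsClosed {ψ : C(YX r, ℂ) | LL μ ψ = 0} := isClosed_eq LL_cont continuous_const
  have hsub : closure ((StarAlgebra.adjoin ℂ S : StarSubalgebra ℂ C(YX r, ℂ)) : Set C(YX r, ℂ)) ⊆
      {ψ : C(YX r, ℂ) | LL μ ψ = 0} := closure_minimal (fun ψ hψ => hadj ψ hψ) hcl
  exact hsub hmem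

/-- a bounded real function whose products with the functions of the other coordinates have mean zero -/
theorem real_zero {u : SX r → ℝ} (hu : Continuous u) (hu1 : ∀ x, |u x| ≤ 1)
    (h : ∀ ψ : C(YX r, ℝ), ∫ x, ψ (rs r x) * u x ∂μ = 0) {B : Set (YX r)} (hB : MeasurableSet B) :
    ∫ x in rs r ⁻¹' B, u x ∂μ = 0 := by
  set w : SX r → ENNReal := fun x => ENNReal.ofReal (1 + u x) with hw
  have hwm : Measurable w := (continuous_const.add hu).measurable.ennreal_ofReal
  have hw0 : ∀ x, 0 ≤ 1 + u x := fun x => by linarith [neg_le_of_abs_le (hu1 x)]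
  have hfinw : IsFiniteMeasure (μ.withDensity w) := by
    refine isFiniteMeasure_withDensity_ofReal ?_
    exact (Integrable.of_bound (continuous_const.add hu).aestronglyMeasurable 2 (Eventually.of_forall fun x => by
      show |1 + u x| ≤ 2
      rw [abs_of_nonneg (hw0 x)]
      linarith [le_of_abs_le (hu1 x)])).2
  have hui : Integrable u μ := Integrable.of_bound hu.aestronglyMeasurable 1 (Eventually.of_forall hu1)
  have hmap1 : IsFiniteMeasure ((μ.withDensity w).map (rs r)) := by infer_instance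
  have hmap0 : IsFiniteMeasure (μ.map (rs r)) := by infer_instance
  have heq : (μ.withDensity w).map (rs r) = μ.map (rs r) := by
    refine ext_of_forall_integral_eq_of_IsFiniteMeasure fun f => ?_
    rw [integral_map (rs_meas r).aemeasurable f.continuous.aestronglyMeasurable,
      integral_map (rs_meas r).aemeasurable f.continuous.aestronglyMeasurable]
    rw [integral_withDensity_eq_integral_toReal_smul hwm (Eventually.of_forall fun x => ENNReal.ofReal_lt_top)]
    have e1 : ∀ x, (w x).toReal • f (rs r x) = f (rs r x) + f (rs r x) * u x := by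
      intro x
      rw [hw]
      simp only [ENNReal.toReal_ofReal (hw0 x), smul_eq_mul]
      ring
    rw [integral_congr_ae (Eventually.of_forall e1)]
    have hc : Continuous fun x => f (rs r x) := f.continuous.comp (rs_cont r)
    have hb : ∀ x, ‖f (rs r x)‖ ≤ ‖f‖ := fun x => f.norm_coe_le_norm _
    rw [integral_add]
    · have := h ⟨f, f.continuous⟩
      simp only [ContinuousMap.coe_mk] at this
      rw [this, add_zero]
    · exact Integrable.of_bound hc.aestronglyMeasurable ‖f‖ (Eventually.of_forall hb)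
    · refine Integrable.of_bound (hc.mul hu).aestronglyMeasurable ‖f‖ (Eventually.of_forall fun x => ?_)
      rw [norm_mul]
      calc ‖f (rs r x)‖ * ‖u x‖ ≤ ‖f‖ * 1 := mul_le_mul (hb x) (hu1 x) (norm_nonneg _) (norm_nonneg _)
        _ = _ := mul_one _
  have h1 := congrArg (fun m => m B) heq
  simp only [Measure.map_apply (rs_meas r) hB] at h1
  have hA : MeasurableSet (rs r ⁻¹' B) := rs_meas r hB
  rw [withDensity_apply _ hA] at h1
  have h2 : ∫ x in rs r ⁻¹' B, (1 + u x) ∂μ = (μ (rs r ⁻¹' B)).toReal := by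
    rw [← h1, integral_eq_lintegral_of_nonneg_ae (Eventually.of_forall hw0)
      (continuous_const.add hu).aestronglyMeasurable]
  rw [integral_add (integrable_const _).integrableOn hui.integrableOn, setIntegral_const] at h2
  simp only [smul_eq_mul, mul_one, Measure.real] at h2
  linarith

end main

/-- **FUR1.** -/
theorem t_FUR1 : S_FUR1 := by
  intro r μ hμ h A hA
  have hL := LL_zero (μ := μ) h
  rw [others_eq] at hA
  obtain ⟨B, hB, rfl⟩ := hA
  have hconv : ∀ ψ : C(YX r, ℝ), ∫ x, ((ψ (rs r x) : ℝ) : ℂ) * v0 x ∂μ = 0 := by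
    intro ψ
    exact hL ⟨fun y => ((ψ y : ℝ) : ℂ), Complex.continuous_ofReal.comp ψ.continuous⟩
  have hint : ∀ ψ : C(YX r, ℝ), Integrable (fun x => ((ψ (rs r x) : ℝ) : ℂ) * v0 x) μ := by
    intro ψ
    exact int_psi ⟨fun y => ((ψ y : ℝ) : ℂ), Complex.continuous_ofReal.comp ψ.continuous⟩
  have hre : ∀ ψ : C(YX r, ℝ), ∫ x, ψ (rs r x) * (v0 x).re ∂μ = 0 := by
    intro ψ
    have h1 := congrArg Complex.re (hconv ψ)
    rw [← RCLike.re_eq_complex_re, ← integral_re (hint ψ)] at h1
    simp only [RCLike.re_eq_complex_re, Complex.re_ofReal_mul, Complex.zero_re] at h1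
    exact h1
  have him : ∀ ψ : C(YX r, ℝ), ∫ x, ψ (rs r x) * (v0 x).im ∂μ = 0 := by
    intro ψ
    have h1 := congrArg Complex.im (hconv ψ)
    rw [← RCLike.im_eq_complex_im, ← integral_im (hint ψ)] at h1
    simp only [RCLike.im_eq_complex_im, Complex.im_ofReal_mul, Complex.zero_im] at h1
    exact h1
  have k1 := real_zero (Complex.continuous_re.comp (v0_cont r)) (fun x => (Complex.abs_re_le_norm _).trans (v0_norm x)) hre hB
  have k2 := real_zero (Complex.continuous_im.comp (v0_cont r)) (fun x => (Complex.abs_im_le_norm _).trans (v0_norm x)) him hB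
  have hv : Integrable (v0 (r := r)) (μ.restrict (rs r ⁻¹' B)) := (int_of (v0_cont r) v0_norm).integrableOn
  show ∫ x in rs r ⁻¹' B, v0 x ∂μ = 0
  apply Complex.ext
  · rw [← RCLike.re_eq_complex_re, ← integral_re hv]
    exact k1
  · rw [← RCLike.im_eq_complex_im, ← integral_im hv]
    exact k2

end Pool.Agent.Q299.EB
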